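import Pool.Agent.Y474.R11.Tool
import Pool.Agent.Y766.R3.TE

/-!
# R11, FM1: the mollified `L`-functions are close to `1` on average
-/

set_option autoImplicit false

namespace Pool.Agent.Y474.R11

open Finset Filter
open Pool.Agent.Y766.R10 (WG mw)
open Pool.Agent.Y766.R11
open Pool.Agent.Y785.R10 (om om_smooth om_zero om_le om_bound om_sum piece)

section abs

variable {q : ℕ} {Θ : Type*} [Fintype Θ]

/-- the hypothesis for short ranges -/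
def HM (ψ : Θ → DirichletCharacter ℂ q) (M : Θ → ℂ) (s : ℂ) (κ X L η C P : ℝ) : Prop :=
  ∀ (B : ℝ) (G : ℝ → ℂ), WG B G → ∀ a : ℝ, a ≤ 1 / 2 + κ →
    (∀ v, v ∉ Set.Icc a (a + κ) → G v = 0) →
    ∑ θ, ‖AS (ψ θ) G s * M θ‖ ^ 2 ≤
      C * B ^ 2 * (Real.exp (-(2 * X * max a 0)) + Real.exp (-η * L)) * P

/-- the hypothesis for the first range -/
def HZ (ψ : Θ → DirichletCharacter ℂ q) (M : Θ → ℂ) (s : ℂ) (κ X L η C P : ℝ) : Prop :=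
  ∀ (B : ℝ) (G : ℝ → ℂ), WG B G → (∀ v, v ∉ Set.Icc (-(κ / 4)) (3 * κ / 4) → G v = 0) →
    ∀ e₀ : ℝ, 0 ≤ e₀ → (∀ v, 0 ≤ v → v ≤ κ / 4 → ‖G v - 1‖ ≤ e₀) →
    ∑ θ, ‖AS (ψ θ) G s * M θ - 1‖ ^ 2 ≤
      C * (B ^ 2 * (Real.exp (-(κ / 2) * X) + Real.exp (-η * L)) + e₀ ^ 2 * (1 + L) ^ 4) * P

variable {ψ : Θ → DirichletCharacter ℂ q} {M : Θ → ℂ} {s : ℂ} {κ X L η C P Λ D B : ℝ} {G : ℝ → ℂ}

/-- the numbers -/
structure Ok (κ X L η C P Λ D : ℝ) : Prop where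
  hκ : 0 < κ
  hκ1 : κ ≤ 1 / 100
  hX : -Λ ≤ X
  hXL : X ≤ L / 4
  hL : 0 ≤ L
  hη : 20 * κ ≤ η
  hC : 0 ≤ C
  hP : 0 ≤ P
  hΛ : 0 ≤ Λ
  hD : 0 < D
  d1 : ∀ x, ‖deriv om x‖ ≤ D
  d2 : ∀ x, ‖deriv (deriv om) x‖ ≤ D

/-- the rest of the first sum -/
theorem firstR (h : HM ψ M s κ X L η C P) (ok : Ok κ X L η C P Λ D) (hG : WG B G) :
    ∑ θ, ‖AS (ψ θ) (fun v => ∑ i ∈ range (⌊2 / κ⌋₊ + 4), pc κ G (i + 2) v) s * M θ‖ ^ 2 ≤
      ((⌊2 / κ⌋₊ + 4 : ℕ) : ℝ) ^ 2 * (C * (B * KK κ D) ^ 2 * (Real.exp (2 * Λ) + 1) *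
        Real.exp (-(κ / 2) * X) * P) := by
  obtain ⟨hκ, hκ1, hX, hXL, hL, hη, hC, hP, hΛ, hD, d1, d2⟩ := ok
  refine split ψ M s _ _ (fun i => pc κ G (i + 2)) (fun v _ => rfl) _ fun i hi => ?_
  have hi' : i + 2 ∈ range (nn κ) := by
    rw [mem_range] at hi ⊢
    unfold nn
    omega
  obtain ⟨a, ha⟩ : ∃ a : ℝ, a = (((i + 2 : ℕ) : ℝ) - 1) * κ / 4 := ⟨_, rfl⟩
  have ha1 : a ≤ 1 / 2 + κ := ha ▸ pc_a hκ hi'
  have ha2 : κ / 4 ≤ a := by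
    rw [ha]
    push_cast
    have : (0 : ℝ) ≤ i := Nat.cast_nonneg i
    nlinarith [mul_nonneg this hκ.le]
  have h1 := h (B * KK κ D) (pc κ G (i + 2)) (pc_WG hκ hD d1 d2 hG _) a ha1 (by
    intro v hv
    refine pc_supp hκ G _ v fun hv' => hv ?_
    rw [← ha] at hv'
    exact ⟨hv'.1, hv'.2.trans (by linarith)⟩)
  refine h1.trans ?_
  have h2 : Real.exp (-(2 * X * max a 0)) ≤ Real.exp (2 * Λ) * Real.exp (-(κ / 2) * X) := by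
    rw [max_eq_left (by linarith)]
    have h3 := ex1 (X := X) (Λ := Λ) (κ := κ) (β := 2 * a) hX (by linarith) hκ.le hΛ
    have h4 : Real.exp (2 * a * Λ) ≤ Real.exp (2 * Λ) := by
      apply Real.exp_le_exp.2
      nlinarith [mul_nonneg (by linarith : 0 ≤ 2 - 2 * a) hΛ]
    have h5 : -(2 * X * a) = -(2 * a) * X := by ring
    rw [h5]
    exact h3.trans (mul_le_mul_of_nonneg_right h4 (Real.exp_pos _).le)
  have h3 : Real.exp (-η * L) ≤ Real.exp (-(κ / 2) * X) := ex2 hXL hL hκ.le (by linarith)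
  have h4 : Real.exp (-(2 * X * max a 0)) + Real.exp (-η * L) ≤
      (Real.exp (2 * Λ) + 1) * Real.exp (-(κ / 2) * X) := by linarith
  calc _ ≤ C * (B * KK κ D) ^ 2 * ((Real.exp (2 * Λ) + 1) * Real.exp (-(κ / 2) * X)) * P := by
        gcongr
    _ = _ := by ring

/-- the dual sum -/
theorem secondR (h : HM ψ M s κ X L η C P) (ok : Ok κ X L η C P Λ D) (hG : WG B G)
    (hG0 : ∀ v, 1 / 2 + κ ≤ v → G v = 0) :
    ∑ θ, ‖AS (ψ θ) (fun v => (Real.exp (X * (2 * v - 1)) : ℂ) * G v) s * M θ‖ ^ 2 ≤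
      (nn κ : ℝ) ^ 2 * (C * (B * KK κ D) ^ 2 * (Real.exp (2 * κ * Λ) * (2 * Real.exp (4 * Λ) *
        (24 * (4 / κ) ^ 4 * Real.exp (κ / 4 + κ * Λ)))) * Real.exp (-(κ / 2) * X) * P) := by
  obtain ⟨hκ, hκ1, hX, hXL, hL, hη, hC, hP, hΛ, hD, d1, d2⟩ := ok
  refine split ψ M s _ (nn κ) (fun i v => (Real.exp (X * (2 * v - 1)) : ℂ) * pc κ G i v)
    (fun v hv => ?_) _ fun i hi => ?_
  · rw [← mul_sum, ← pc_sum hκ G hG0 v hv]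
  obtain ⟨a, ha⟩ : ∃ a : ℝ, a = ((i : ℝ) - 1) * κ / 4 := ⟨_, rfl⟩
  have ha1 : a ≤ 1 / 2 + κ := ha ▸ pc_a hκ hi
  have ha2 : -(κ / 4) ≤ a := by
    rw [ha]
    have : (0 : ℝ) ≤ i := Nat.cast_nonneg i
    nlinarith [mul_nonneg this hκ.le]
  have hsup : ∀ v, v ∉ Set.Icc a (a + κ / 2) → pc κ G i v = 0 := by
    intro v hv
    rw [ha] at hv
    exact pc_supp hκ G i v hv
  have hM : ∀ v, v ∈ Set.Icc a (a + κ / 2) →
      Real.exp (X * (2 * v - 1)) ≤ Real.exp (κ * Λ + X * (2 * a + κ - 1)) := by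
    intro v hv
    apply Real.exp_le_exp.2
    obtain ⟨hv1, hv2⟩ := hv
    have e1 : κ * Λ + X * (2 * a + κ - 1) - X * (2 * v - 1) =
        κ * Λ + X * (2 * a + κ - 2 * v) := by ring
    have e2 : 0 ≤ 2 * a + κ - 2 * v := by linarith
    have e3 : 2 * a + κ - 2 * v ≤ κ := by linarith
    have e4 := mul_nonneg e2 (by linarith : 0 ≤ X + Λ)
    have e5 := mul_nonneg (sub_nonneg.2 e3) hΛ
    nlinarith
  have hW := WG_exp (X := X) (pc_WG hκ hD d1 d2 hG i) hsup hM (Real.exp_pos _).le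
  have h1 := h _ _ hW a ha1 (by
    intro v hv
    rw [hsup v fun hv' => hv ⟨hv'.1, hv'.2.trans (by linarith)⟩, mul_zero])
  refine h1.trans ?_
  have h2 := ex3 hΛ hX hXL hL hκ hκ1 hη ha2 ha1
  have h3 := ex4 hΛ hX hκ
  have h4 : Real.exp (κ * Λ + X * (2 * a + κ - 1)) ^ 2 =
      Real.exp (2 * κ * Λ) * Real.exp (X * (4 * a + 2 * κ - 2)) := by
    rw [← Real.exp_add, ← Real.exp_nat_mul]
    congr 1
    push_cast
    ring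
  have h5 : C * ((1 + 2 * |X|) ^ 2 * Real.exp (κ * Λ + X * (2 * a + κ - 1)) * (B * KK κ D)) ^ 2 *
      (Real.exp (-(2 * X * max a 0)) + Real.exp (-η * L)) * P =
      C * (B * KK κ D) ^ 2 * (Real.exp (2 * κ * Λ) * ((1 + 2 * |X|) ^ 4 *
        (Real.exp (X * (4 * a + 2 * κ - 2)) *
        (Real.exp (-(2 * X * max a 0)) + Real.exp (-η * L))))) * P := by
    rw [mul_pow, mul_pow, h4]
    ring
  rw [h5]
  calc _ ≤ C * (B * KK κ D) ^ 2 * (Real.exp (2 * κ * Λ) * ((1 + 2 * |X|) ^ 4 *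
        (2 * Real.exp (4 * Λ) * Real.exp (-κ * X)))) * P := by gcongr
    _ = C * (B * KK κ D) ^ 2 * (Real.exp (2 * κ * Λ) * (2 * Real.exp (4 * Λ) *
        ((1 + 2 * |X|) ^ 4 * Real.exp (-κ * X)))) * P := by ring
    _ ≤ C * (B * KK κ D) ^ 2 * (Real.exp (2 * κ * Λ) * (2 * Real.exp (4 * Λ) *
        (24 * (4 / κ) ^ 4 * Real.exp (κ / 4 + κ * Λ) * Real.exp (-(κ / 2) * X)))) * P := by
        gcongr
    _ = _ := by ring

/-- the first range -/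
theorem firstZ (h : HZ ψ M s κ X L η C P) (ok : Ok κ X L η C P Λ D) (hG : WG B G)
    (hG1 : ∀ v, v ≤ 1 / 4 → ‖G v - 1‖ ≤ B * Real.exp (-(1 / 10) * L)) :
    ∑ θ, ‖AS (ψ θ) (fun v => pc κ G 0 v + pc κ G 1 v) s * M θ - 1‖ ^ 2 ≤
      C * ((B * KK κ D + B * KK κ D) ^ 2 * 2 + B ^ 2 * (240000 * Real.exp (1 / 10))) *
        Real.exp (-(κ / 2) * X) * P := by
  obtain ⟨hκ, hκ1, hX, hXL, hL, hη, hC, hP, hΛ, hD, d1, d2⟩ := ok
  have hB : 0 ≤ B := (norm_nonneg _).trans (hG.b0 0)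
  have h1 := h _ _ (WG_add (pc_WG hκ hD d1 d2 hG 0) (pc_WG hκ hD d1 d2 hG 1)) (by
    intro v hv
    rw [pc_supp hκ G 0 v, pc_supp hκ G 1 v, add_zero]
    · intro hv'
      apply hv
      obtain ⟨e1, e2⟩ := hv'
      push_cast at e1 e2
      constructor <;> linarith
    · intro hv'
      apply hv
      obtain ⟨e1, e2⟩ := hv'
      push_cast at e1 e2
      constructor <;> linarith) (B * Real.exp (-(1 / 10) * L)) (by positivity) (by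
    intro v hv0 hv1
    have e1 : pc κ G 0 v + pc κ G 1 v = G v := by
      have e2 := om_sum 2 (4 / κ * v) (by positivity) (by
        have e3 : 4 / κ * v ≤ 4 / κ * (κ / 4) := mul_le_mul_of_nonneg_left hv1 (by positivity)
        have e4 : 4 / κ * (κ / 4) = 1 := by field_simp
        push_cast
        linarith)
      rw [sum_range_succ, sum_range_one] at e2
      unfold pc
      rw [← mul_add, e2, mul_one]
    rw [e1]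
    exact hG1 v (by linarith))
  refine h1.trans ?_
  have h2 : Real.exp (-η * L) ≤ Real.exp (-(κ / 2) * X) := ex2 hXL hL hκ.le (by linarith)
  have h3 : Real.exp (-(1 / 10) * L) ≤ Real.exp (-(κ / 2) * X) :=
    ex2 hXL hL hκ.le (by linarith)
  have h4 : (B * Real.exp (-(1 / 10) * L)) ^ 2 * (1 + L) ^ 4 ≤
      B ^ 2 * (240000 * Real.exp (1 / 10)) * Real.exp (-(κ / 2) * X) := by
    have h5 : Real.exp (-(1 / 10) * L) ^ 2 = Real.exp (-(1 / 5) * L) := by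
      rw [← Real.exp_nat_mul]
      congr 1
      push_cast
      ring
    have h6 := ex5 hL
    calc (B * Real.exp (-(1 / 10) * L)) ^ 2 * (1 + L) ^ 4 =
          B ^ 2 * (Real.exp (-(1 / 5) * L) * (1 + L) ^ 4) := by
          rw [mul_pow, h5]
          ring
      _ ≤ B ^ 2 * (240000 * Real.exp (1 / 10) * Real.exp (-(1 / 10) * L)) := by gcongr
      _ ≤ B ^ 2 * (240000 * Real.exp (1 / 10) * Real.exp (-(κ / 2) * X)) := by gcongr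
      _ = _ := by ring
  have h5 : (B * KK κ D + B * KK κ D) ^ 2 *
      (Real.exp (-(κ / 2) * X) + Real.exp (-η * L)) ≤
      (B * KK κ D + B * KK κ D) ^ 2 * 2 * Real.exp (-(κ / 2) * X) := by
    have := mul_le_mul_of_nonneg_left h2 (sq_nonneg (B * KK κ D + B * KK κ D))
    linarith
  calc _ ≤ C * ((B * KK κ D + B * KK κ D) ^ 2 * 2 * Real.exp (-(κ / 2) * X) +
        B ^ 2 * (240000 * Real.exp (1 / 10)) * Real.exp (-(κ / 2) * X)) * P := by gcongr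
    _ = _ := by ring

theorem AS_two {χ : DirichletCharacter ℂ q} {Z R : ℝ → ℂ}
    (h : ∀ v : ℝ, 0 ≤ v → G v = Z v + R v) : AS χ G s = AS χ Z s + AS χ R s := by
  unfold AS
  rw [← sum_add_distrib]
  refine sum_congr rfl fun n _ => ?_
  rw [h _ (div_nonneg (Real.log_natCast_nonneg _) (Real.log_natCast_nonneg _)), add_mul]

/-- the first sum -/
theorem first {C' η' : ℝ} (h : HM ψ M s κ X L η C P) (h' : HZ ψ M s κ X L η' C' P)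
    (ok : Ok κ X L η C P Λ D) (ok' : Ok κ X L η' C' P Λ D) (hG : WG B G)
    (hG0 : ∀ v, 1 / 2 + κ ≤ v → G v = 0)
    (hG1 : ∀ v, v ≤ 1 / 4 → ‖G v - 1‖ ≤ B * Real.exp (-(1 / 10) * L)) :
    ∑ θ, ‖AS (ψ θ) G s * M θ - 1‖ ^ 2 ≤
      2 * (C' * ((B * KK κ D + B * KK κ D) ^ 2 * 2 + B ^ 2 * (240000 * Real.exp (1 / 10))) *
        Real.exp (-(κ / 2) * X) * P) + 2 * (((⌊2 / κ⌋₊ + 4 : ℕ) : ℝ) ^ 2 *
        (C * (B * KK κ D) ^ 2 * (Real.exp (2 * Λ) + 1) * Real.exp (-(κ / 2) * X) * P)) := by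
  have h1 := firstZ h' ok' hG hG1
  have h2 := firstR h ok hG
  have h3 : ∀ v : ℝ, 0 ≤ v → G v = (pc κ G 0 v + pc κ G 1 v) +
      ∑ i ∈ range (⌊2 / κ⌋₊ + 4), pc κ G (i + 2) v := by
    intro v hv
    have e1 := pc_sum ok.hκ G hG0 v hv
    have e2 : nn κ = (⌊2 / κ⌋₊ + 4) + 1 + 1 := by
      unfold nn
      omega
    rw [e2, sum_range_succ', sum_range_succ'] at e1
    conv_lhs => rw [e1]
    ring
  calc ∑ θ, ‖AS (ψ θ) G s * M θ - 1‖ ^ 2 ≤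
      ∑ θ, (2 * ‖AS (ψ θ) (fun v => pc κ G 0 v + pc κ G 1 v) s * M θ - 1‖ ^ 2 +
        2 * ‖AS (ψ θ) (fun v => ∑ i ∈ range (⌊2 / κ⌋₊ + 4), pc κ G (i + 2) v) s * M θ‖ ^ 2) := by
        refine sum_le_sum fun θ _ => ?_
        rw [AS_two h3]
        have e1 : (AS (ψ θ) (fun v => pc κ G 0 v + pc κ G 1 v) s +
            AS (ψ θ) (fun v => ∑ i ∈ range (⌊2 / κ⌋₊ + 4), pc κ G (i + 2) v) s) * M θ - 1 =
            (AS (ψ θ) (fun v => pc κ G 0 v + pc κ G 1 v) s * M θ - 1) +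
            AS (ψ θ) (fun v => ∑ i ∈ range (⌊2 / κ⌋₊ + 4), pc κ G (i + 2) v) s * M θ := by ring
        rw [e1]
        have e2 := norm_add_le (AS (ψ θ) (fun v => pc κ G 0 v + pc κ G 1 v) s * M θ - 1)
          (AS (ψ θ) (fun v => ∑ i ∈ range (⌊2 / κ⌋₊ + 4), pc κ G (i + 2) v) s * M θ)
        have e3 := pow_le_pow_left₀ (norm_nonneg _) e2 2
        refine e3.trans ?_
        nlinarith [sq_nonneg (‖AS (ψ θ) (fun v => pc κ G 0 v + pc κ G 1 v) s * M θ - 1‖ -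
          ‖AS (ψ θ) (fun v => ∑ i ∈ range (⌊2 / κ⌋₊ + 4), pc κ G (i + 2) v) s * M θ‖)]
    _ ≤ _ := by
        rw [sum_add_distrib, ← mul_sum, ← mul_sum]
        linarith

end abs

/-- one character -/
theorem pw {q : ℕ} (hq : 1 < q) (χ : DirichletCharacter ℂ q) (G1 G2 : ℝ → ℂ) (s w Lv M : ℂ)
    (hw : ‖w‖ = 1)
    (h : ‖Lv - (AS χ G1 s + w * (q : ℂ) ^ (1 / 2 - s) *
      (starRingEnd ℂ) (AS χ G2 (1 - (starRingEnd ℂ) s)))‖ ≤ 1 / q) :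
    ‖Lv * M - 1‖ ^ 2 ≤ 3 * (‖AS χ G1 s * M - 1‖ ^ 2 +
      ‖AS χ (fun v => (Real.exp ((s.re - 1 / 2) * Real.log q * (2 * v - 1)) : ℂ) * G2 v) s *
        M‖ ^ 2 + (‖M‖ / q) ^ 2) := by
  have e1 : Lv * M - 1 = (AS χ G1 s * M - 1) + w * (q : ℂ) ^ (1 / 2 - s) *
      (starRingEnd ℂ) (AS χ G2 (1 - (starRingEnd ℂ) s)) * M +
      (Lv - (AS χ G1 s + w * (q : ℂ) ^ (1 / 2 - s) *
      (starRingEnd ℂ) (AS χ G2 (1 - (starRingEnd ℂ) s)))) * M := by ring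
  have e2 : ‖w * (q : ℂ) ^ (1 / 2 - s) *
      (starRingEnd ℂ) (AS χ G2 (1 - (starRingEnd ℂ) s)) * M‖ =
      ‖AS χ (fun v => (Real.exp ((s.re - 1 / 2) * Real.log q * (2 * v - 1)) : ℂ) * G2 v) s *
        M‖ := by
    rw [← AS_shift hq, norm_mul, norm_mul, norm_mul, norm_mul, norm_mul, hw, norm_q hq, one_mul,
      RCLike.norm_conj, Complex.norm_real, Real.norm_eq_abs, abs_of_pos (Real.exp_pos _)]
  have e3 : ‖(Lv - (AS χ G1 s + w * (q : ℂ) ^ (1 / 2 - s) *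
      (starRingEnd ℂ) (AS χ G2 (1 - (starRingEnd ℂ) s)))) * M‖ ≤ ‖M‖ / q := by
    rw [norm_mul]
    calc _ ≤ 1 / (q : ℝ) * ‖M‖ := mul_le_mul_of_nonneg_right h (norm_nonneg _)
      _ = _ := by ring
  have e4 : ‖Lv * M - 1‖ ≤ ‖AS χ G1 s * M - 1‖ +
      ‖AS χ (fun v => (Real.exp ((s.re - 1 / 2) * Real.log q * (2 * v - 1)) : ℂ) * G2 v) s *
        M‖ + ‖M‖ / q := by
    rw [e1]
    refine (norm_add_le _ _).trans (add_le_add ((norm_add_le _ _).trans ?_) e3)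
    rw [e2]
  have e5 := pow_le_pow_left₀ (norm_nonneg _) e4 2
  refine e5.trans ?_
  nlinarith [sq_nonneg (‖AS χ G1 s * M - 1‖ -
      ‖AS χ (fun v => (Real.exp ((s.re - 1 / 2) * Real.log q * (2 * v - 1)) : ℂ) * G2 v) s *
        M‖), sq_nonneg (‖AS χ G1 s * M - 1‖ - ‖M‖ / q),
    sq_nonneg (‖AS χ (fun v => (Real.exp ((s.re - 1 / 2) * Real.log q * (2 * v - 1)) : ℂ) *
      G2 v) s * M‖ - ‖M‖ / q)]

/-- the error term -/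
theorem errM {q : ℕ} (hq : 1 < q) (χ : DirichletCharacter ℂ q) {κ : ℝ} (hκ : 0 < κ)
    (hκ1 : κ ≤ 1 / 100) {s : ℂ} (hs : 0 ≤ s.re) :
    (‖MP χ κ s‖ / q) ^ 2 ≤ 9 * Real.exp (-1 * Real.log q) := by
  have hq0 : (0 : ℝ) < q := by exact_mod_cast (by omega : 0 < q)
  have hq1 : (1 : ℝ) ≤ q := by exact_mod_cast hq.le
  have h1 := MP_le hq χ hκ hs
  have h2 : ((q : ℝ) ^ κ) ^ 2 ≤ q := by
    have h3 : ((q : ℝ) ^ κ) ^ 2 = (q : ℝ) ^ (κ * 2) := by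
      rw [Real.rpow_mul hq0.le]
      norm_cast
    rw [h3]
    calc (q : ℝ) ^ (κ * 2) ≤ (q : ℝ) ^ (1 : ℝ) :=
          Real.rpow_le_rpow_of_exponent_le hq1 (by linarith)
      _ = q := Real.rpow_one _
  have h4 : Real.exp (-1 * Real.log q) = 1 / q := by
    rw [neg_one_mul, Real.exp_neg, Real.exp_log hq0, one_div]
  rw [h4, div_pow]
  have h5 : ‖MP χ κ s‖ ^ 2 ≤ 9 * q := by
    calc ‖MP χ κ s‖ ^ 2 ≤ (3 * (q : ℝ) ^ κ) ^ 2 := pow_le_pow_left₀ (norm_nonneg _) h1 2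
      _ = 9 * ((q : ℝ) ^ κ) ^ 2 := by ring
      _ ≤ 9 * q := by linarith
  rw [div_le_iff₀ (by positivity)]
  calc ‖MP χ κ s‖ ^ 2 ≤ 9 * q := h5
    _ = 9 * (1 / (q : ℝ)) * (q : ℝ) ^ 2 := by field_simp

/-- **FM1** -/
theorem fm1 (h0 : Pool.Agent.Y766.R11.S_AFS) (h1 : Pool.Agent.Y766.R11.S_MSR)
    (h2 : Pool.Agent.Y766.R11.S_MSZ) : Pool.Agent.Y766.R11.S_FM1 := by
  obtain ⟨D, hD, d1, d2⟩ := om_bound
  intro δ hδ
  obtain ⟨κ₁, η₁, k0, k1, k2, k3, h1⟩ := h1 δ hδ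
  obtain ⟨κ₂, η₂, l0, l1, l2, l3, h2⟩ := h2 δ hδ
  obtain ⟨κ, hκdef⟩ : ∃ κ, κ = min κ₁ κ₂ := ⟨_, rfl⟩
  have hκ : 0 < κ := by
    rw [hκdef]
    exact lt_min k0 l0
  have hκ1 : κ ≤ κ₁ := hκdef ▸ min_le_left _ _
  have hκ2 : κ ≤ κ₂ := hκdef ▸ min_le_right _ _
  have hκ100 : κ ≤ 1 / 100 := hκ1.trans k1
  refine ⟨κ, hκ, hκ100, fun T Λ hΛ => ?_⟩
  obtain ⟨C₁, hC₁, h1⟩ := h1 κ hκ hκ1 T Λ hΛ
  obtain ⟨C₂, hC₂, h2⟩ := h2 κ hκ hκ2 T Λ hΛ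
  obtain ⟨C₀, q₀, hC₀, h0⟩ := h0 T Λ (κ / 3) hΛ (by positivity) (by linarith)
  obtain ⟨A1, hA1⟩ : ∃ A1, A1 = C₂ * ((C₀ * KK κ D + C₀ * KK κ D) ^ 2 * 2 +
    C₀ ^ 2 * (240000 * Real.exp (1 / 10))) := ⟨_, rfl⟩
  obtain ⟨A2, hA2⟩ : ∃ A2, A2 = ((⌊2 / κ⌋₊ + 4 : ℕ) : ℝ) ^ 2 *
    (C₁ * (C₀ * KK κ D) ^ 2 * (Real.exp (2 * Λ) + 1)) := ⟨_, rfl⟩
  obtain ⟨A3, hA3⟩ : ∃ A3, A3 = (nn κ : ℝ) ^ 2 * (C₁ * (C₀ * KK κ D) ^ 2 *
    (Real.exp (2 * κ * Λ) * (2 * Real.exp (4 * Λ) *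
        (24 * (4 / κ) ^ 4 * Real.exp (κ / 4 + κ * Λ))))) := ⟨_, rfl⟩
  have hA1' : 0 ≤ A1 := by rw [hA1]; positivity
  have hA2' : 0 ≤ A2 := by rw [hA2]; positivity
  have hA3' : 0 ≤ A3 := by rw [hA3]; positivity
  refine ⟨6 * (2 * A1 + 2 * A2 + A3 + 9), κ / 2, by positivity, by positivity,
    fun p hpF hp => ?_⟩
  obtain ⟨ν₁, h1⟩ := h1 p hp
  obtain ⟨ν₂, h2⟩ := h2 p hp
  refine ⟨max (max ν₁ ν₂) (max ⌈q₀⌉₊ ⌈2 * Λ⌉₊), fun ν m hmν hν hm χ hχ s hs => ?_⟩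
  have hν1 : ν₁ ≤ ν := (le_max_left _ _).trans ((le_max_left _ _).trans hν)
  have hν2 : ν₂ ≤ ν := (le_max_right _ _).trans ((le_max_left _ _).trans hν)
  have hν3 : ⌈q₀⌉₊ ≤ ν := (le_max_left _ _).trans ((le_max_right _ _).trans hν)
  have hν4 : ⌈2 * Λ⌉₊ ≤ ν := (le_max_right _ _).trans ((le_max_right _ _).trans hν)
  have h1 := h1 ν m hmν hν1 hm χ hχ
  have h2 := h2 ν m hmν hν2 hm χ hχ
  have hν0 : ν ≠ 0 := by omega
  have hp1 : 1 < p := by omega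
  have hq : 1 < p ^ ν := Nat.one_lt_pow hν0 hp1
  have hcast : ((p ^ ν : ℕ) : ℝ) = (p : ℝ) ^ ν := by push_cast; rfl
  have hp0 : (0 : ℝ) < p := by exact_mod_cast (by omega : 0 < p)
  have hqpos : (0 : ℝ) < (p : ℝ) ^ ν := by positivity
  have hlog : Real.log ((p : ℝ) ^ ν) = ν * Real.log p := Real.log_pow _ _
  have hlogp : 1 ≤ Real.log p := by
    rw [Real.le_log_iff_exp_le hp0]
    have : (7 : ℝ) ≤ p := by exact_mod_cast hp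
    linarith [Real.exp_one_lt_d9]
  obtain ⟨L, hLdef⟩ : ∃ L, L = (ν : ℝ) * Real.log p := ⟨_, rfl⟩
  have hLν : (ν : ℝ) ≤ L := by
    rw [hLdef]
    exact le_mul_of_one_le_right (Nat.cast_nonneg _) hlogp
  have hνpos : (0 : ℝ) < ν := by exact_mod_cast Nat.pos_of_ne_zero hν0
  have hLpos : 0 < L := hνpos.trans_le hLν
  have hL2 : 2 * Λ ≤ L := (Nat.ceil_le.1 hν4).trans hLν
  have hqν : q₀ ≤ ((p ^ ν : ℕ) : ℝ) := by
    refine (Nat.ceil_le.1 hν3).trans ?_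
    exact_mod_cast (Nat.lt_pow_self hp1).le
  obtain ⟨s1, s2, s3⟩ := hs
  obtain ⟨α, hα⟩ : ∃ α, α = s.re - 1 / 2 := ⟨_, rfl⟩
  obtain ⟨X, hXdef⟩ : ∃ X, X = α * L := ⟨_, rfl⟩
  have s1' : -(Λ / L) ≤ α := by
    rw [hlog, ← hLdef] at s1
    linarith
  have hX : -Λ ≤ X := by
    have := mul_le_mul_of_nonneg_right s1' hLpos.le
    rw [neg_mul, div_mul_cancel₀ _ hLpos.ne'] at this
    rw [hXdef]
    exact this
  have hXL : X ≤ L / 4 := by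
    rw [hXdef]
    nlinarith
  have hsre : 0 ≤ s.re := by
    have : Λ / L ≤ 1 / 2 := by
      rw [div_le_iff₀ hLpos]
      linarith
    linarith
  have hP : (0 : ℝ) ≤ (p : ℝ) ^ m := by positivity
  have ok1 : Ok κ X L η₁ C₁ ((p : ℝ) ^ m) Λ D :=
    ⟨hκ, hκ100, hX, hXL, hLpos.le, by linarith, hC₁.le, hP, hΛ.le, hD, d1, d2⟩
  have ok2 : Ok κ X L η₂ C₂ ((p : ℝ) ^ m) Λ D :=
    ⟨hκ, hκ100, hX, hXL, hLpos.le, by linarith, hC₂.le, hP, hΛ.le, hD, d1, d2⟩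
  have hcv : ∀ y : ℝ, ((p : ℝ) ^ ν) ^ y = Real.exp (L * y) := by
    intro y
    rw [Real.rpow_def_of_pos hqpos, hlog, ← hLdef]
  let ψ : DirichletCharacter ℂ (p ^ m) → DirichletCharacter ℂ (p ^ ν) := fun θ =>
    χ * DirichletCharacter.changeLevel (pow_dvd_pow p hmν.le) θ
  let M : DirichletCharacter ℂ (p ^ m) → ℂ := fun θ => MP (ψ θ) κ s
  have hHM : HM ψ M s κ X L η₁ C₁ ((p : ℝ) ^ m) := by
    intro B G hG a ha hsup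
    have h3 := h1 B G hG a ha hsup s ⟨s1, s2, s3⟩
    rw [hcv, hcv] at h3
    have e1 : L * (-2 * (s.re - 1 / 2) * max a 0) = -(2 * X * max a 0) := by
      rw [hXdef, hα]
      ring
    have e2 : L * -η₁ = -η₁ * L := by ring
    rw [e1, e2] at h3
    exact h3
  have hHZ : HZ ψ M s κ X L η₂ C₂ ((p : ℝ) ^ m) := by
    intro B G hG hsup e₀ he₀ hG1
    have h3 := h2 B G hG hsup e₀ he₀ hG1 s ⟨s1, s2, s3⟩
    rw [hcv, hcv, ← hLdef] at h3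
    have e1 : L * (-(κ / 2) * (s.re - 1 / 2)) = -(κ / 2) * X := by
      rw [hXdef, hα]
      ring
    have e2 : L * -η₂ = -η₂ * L := by ring
    rw [e1, e2] at h3
    exact h3
  have hcard : (Fintype.card (DirichletCharacter ℂ (p ^ m)) : ℝ) ≤ (p : ℝ) ^ m := by
    have e1 := DirichletCharacter.card_eq_totient_of_hasEnoughRootsOfUnity ℂ (p ^ m)
    rw [← Nat.card_eq_fintype_card, e1]
    calc ((p ^ m).totient : ℝ) ≤ ((p ^ m : ℕ) : ℝ) := by exact_mod_cast Nat.totient_le _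
      _ = _ := by push_cast; rfl
  obtain ⟨E, hE⟩ : ∃ E, E = Real.exp (-(κ / 2) * X) := ⟨_, rfl⟩
  have herr : ∑ θ, (‖M θ‖ / ((p ^ ν : ℕ) : ℝ)) ^ 2 ≤ 9 * E * (p : ℝ) ^ m := by
    have e1 : ∀ θ ∈ (univ : Finset (DirichletCharacter ℂ (p ^ m))),
        (‖M θ‖ / ((p ^ ν : ℕ) : ℝ)) ^ 2 ≤ 9 * E := by
      intro θ _
      refine (errM hq (ψ θ) hκ hκ100 hsre).trans ?_
      rw [hcast, hlog, ← hLdef, hE]
      have := ex2 (X := X) (L := L) (κ := κ) (η := 1) hXL hLpos.le hκ.le (by linarith)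
      linarith
    refine (sum_le_sum e1).trans ?_
    rw [sum_const, card_univ, nsmul_eq_mul]
    have : 0 ≤ 9 * E := by rw [hE]; positivity
    nlinarith [mul_le_mul_of_nonneg_right hcard this]
  -- the bound for one parity
  have hpar : ∀ G1 G2 : ℝ → ℂ, WG C₀ G1 → WG C₀ G2 →
      (∀ v, 1 / 2 + 3 * (κ / 3) ≤ v → G1 v = 0 ∧ G2 v = 0) →
      (∀ v, v ≤ 1 / 4 → ‖G1 v - 1‖ ≤ C₀ * ((p ^ ν : ℕ) : ℝ) ^ (-(1 / 10) : ℝ)) →
      ∑ θ, (‖AS (ψ θ) G1 s * M θ - 1‖ ^ 2 +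
        ‖AS (ψ θ) (fun v => (Real.exp ((s.re - 1 / 2) * Real.log ((p ^ ν : ℕ) : ℝ) *
          (2 * v - 1)) : ℂ) * G2 v) s * M θ‖ ^ 2 + (‖M θ‖ / ((p ^ ν : ℕ) : ℝ)) ^ 2) ≤
      (2 * A1 + 2 * A2 + A3 + 9) * E * (p : ℝ) ^ m := by
    intro G1 G2 w1 w2 hv hG1
    have e1 : (s.re - 1 / 2) * Real.log ((p ^ ν : ℕ) : ℝ) = X := by
      rw [hcast, hlog, ← hLdef, hXdef, hα]
    have hv1 : ∀ v, 1 / 2 + κ ≤ v → G1 v = 0 := fun v h => (hv v (by linarith)).1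
    have hv2 : ∀ v, 1 / 2 + κ ≤ v → G2 v = 0 := fun v h => (hv v (by linarith)).2
    have e2 : ∀ v, v ≤ 1 / 4 → ‖G1 v - 1‖ ≤ C₀ * Real.exp (-(1 / 10) * L) := by
      intro v h
      have := hG1 v h
      rw [hcast, hcv] at this
      have e3 : L * (-(1 / 10)) = -(1 / 10) * L := by ring
      rw [e3] at this
      exact this
    have g1 := first hHM hHZ ok1 ok2 w1 hv1 e2
    have g2 := secondR hHM ok1 w2 hv2
    rw [e1, sum_add_distrib, sum_add_distrib]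
    rw [← hE] at g1 g2
    have g3 : 2 * (C₂ * ((C₀ * KK κ D + C₀ * KK κ D) ^ 2 * 2 +
        C₀ ^ 2 * (240000 * Real.exp (1 / 10))) * E * (p : ℝ) ^ m) +
        2 * (((⌊2 / κ⌋₊ + 4 : ℕ) : ℝ) ^ 2 *
        (C₁ * (C₀ * KK κ D) ^ 2 * (Real.exp (2 * Λ) + 1) * E * (p : ℝ) ^ m)) =
        (2 * A1 + 2 * A2) * E * (p : ℝ) ^ m := by
      rw [hA1, hA2]
      ring
    have g4 : (nn κ : ℝ) ^ 2 * (C₁ * (C₀ * KK κ D) ^ 2 * (Real.exp (2 * κ * Λ) *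
        (2 * Real.exp (4 * Λ) * (24 * (4 / κ) ^ 4 * Real.exp (κ / 4 + κ * Λ)))) * E *
        (p : ℝ) ^ m) = A3 * E * (p : ℝ) ^ m := by
      rw [hA3]
      ring
    rw [g3] at g1
    rw [g4] at g2
    have g5 : (2 * A1 + 2 * A2 + A3 + 9) * E * (p : ℝ) ^ m = (2 * A1 + 2 * A2) * E * (p : ℝ) ^ m +
      A3 * E * (p : ℝ) ^ m + 9 * E * (p : ℝ) ^ m := by ring
    rw [g5]
    linarith
  have hreg : Reg ((p ^ ν : ℕ) : ℝ) T Λ s := by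
    rw [hcast]
    exact ⟨s1, s2, s3⟩
  obtain ⟨G1, G2, a1, a2, a3, a4, a5⟩ := h0 (p ^ ν) hqν 0 (by norm_num) s hreg
  obtain ⟨G1', G2', b1, b2, b3, b4, b5⟩ := h0 (p ^ ν) hqν 1 le_rfl s hreg
  have f0 := hpar G1 G2 a1 a2 a3 a4
  have f1 := hpar G1' G2' b1 b2 b3 b4
  obtain ⟨F0, hF0⟩ : ∃ F0 : DirichletCharacter ℂ (p ^ m) → ℝ, F0 = fun θ =>
    (‖AS (ψ θ) G1 s * M θ - 1‖ ^ 2 +
        ‖AS (ψ θ) (fun v => (Real.exp ((s.re - 1 / 2) * Real.log ((p ^ ν : ℕ) : ℝ) *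
          (2 * v - 1)) : ℂ) * G2 v) s * M θ‖ ^ 2 + (‖M θ‖ / ((p ^ ν : ℕ) : ℝ)) ^ 2) := ⟨_, rfl⟩
  obtain ⟨F1, hF1⟩ : ∃ F1 : DirichletCharacter ℂ (p ^ m) → ℝ, F1 = fun θ =>
    (‖AS (ψ θ) G1' s * M θ - 1‖ ^ 2 +
        ‖AS (ψ θ) (fun v => (Real.exp ((s.re - 1 / 2) * Real.log ((p ^ ν : ℕ) : ℝ) *
          (2 * v - 1)) : ℂ) * G2' v) s * M θ‖ ^ 2 + (‖M θ‖ / ((p ^ ν : ℕ) : ℝ)) ^ 2) := ⟨_, rfl⟩
  have f0' : ∑ θ, F0 θ ≤ (2 * A1 + 2 * A2 + A3 + 9) * E * (p : ℝ) ^ m := by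
    rw [hF0]
    exact f0
  have f1' : ∑ θ, F1 θ ≤ (2 * A1 + 2 * A2 + A3 + 9) * E * (p : ℝ) ^ m := by
    rw [hF1]
    exact f1
  have hpt : ∀ θ, ‖(ψ θ).LFunction s * M θ - 1‖ ^ 2 ≤ 3 * (F0 θ + F1 θ) := by
    intro θ
    have hprim : (ψ θ).IsPrimitive := Pool.Agent.Y766.R3.prim_mul hpF.out hmν hχ θ
    have n0 : 0 ≤ F0 θ := by
      rw [hF0]
      positivity
    have n1 : 0 ≤ F1 θ := by
      rw [hF1]
      positivity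
    rcases (ψ θ).even_or_odd with hev | hod
    · obtain ⟨w, hw, hL⟩ := a5 (ψ θ) hprim (by rw [pow_zero]; exact hev)
      have := pw hq (ψ θ) G1 G2 s w ((ψ θ).LFunction s) (M θ) hw hL
      have e : F0 θ = (‖AS (ψ θ) G1 s * M θ - 1‖ ^ 2 +
        ‖AS (ψ θ) (fun v => (Real.exp ((s.re - 1 / 2) * Real.log ((p ^ ν : ℕ) : ℝ) *
          (2 * v - 1)) : ℂ) * G2 v) s * M θ‖ ^ 2 + (‖M θ‖ / ((p ^ ν : ℕ) : ℝ)) ^ 2) := by
        rw [hF0]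
      rw [← e] at this
      linarith
    · obtain ⟨w, hw, hL⟩ := b5 (ψ θ) hprim (by rw [pow_one]; exact hod)
      have := pw hq (ψ θ) G1' G2' s w ((ψ θ).LFunction s) (M θ) hw hL
      have e : F1 θ = (‖AS (ψ θ) G1' s * M θ - 1‖ ^ 2 +
        ‖AS (ψ θ) (fun v => (Real.exp ((s.re - 1 / 2) * Real.log ((p ^ ν : ℕ) : ℝ) *
          (2 * v - 1)) : ℂ) * G2' v) s * M θ‖ ^ 2 + (‖M θ‖ / ((p ^ ν : ℕ) : ℝ)) ^ 2) := by
        rw [hF1]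
      rw [← e] at this
      linarith
  have hfin : ∑ θ, ‖(ψ θ).LFunction s * M θ - 1‖ ^ 2 ≤
      6 * (2 * A1 + 2 * A2 + A3 + 9) * E * (p : ℝ) ^ m := by
    refine (sum_le_sum fun θ _ => hpt θ).trans ?_
    rw [← mul_sum, sum_add_distrib]
    linarith
  have hE2 : Real.exp (-(κ / 2) * (s.re - 1 / 2) * (ν * Real.log p)) = E := by
    rw [hE, hXdef, hα, hLdef]
    congr 1
    ring
  rw [hE2]
  exact hfin

end Pool.Agent.Y474.R11
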