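import Pool.Agent.Y766.R11.Stm
import Pool.Agent.Y785.R10.Part

/-!
# R11, FM1: tools
-/

set_option autoImplicit false

namespace Pool.Agent.Y474.R11

open Finset Filter
open scoped ContDiff
open Pool.Agent.Y766.R10 (WG mw)
open Pool.Agent.Y766.R11
open Pool.Agent.Y785.R10 (om om_smooth om_zero om_le om_bound om_sum piece)

/-! ### sums -/

theorem AS_sum {q : ℕ} (χ : DirichletCharacter ℂ q) (s : ℂ) (G : ℝ → ℂ) (N : ℕ)
    (H : ℕ → ℝ → ℂ) (h : ∀ v : ℝ, 0 ≤ v → G v = ∑ i ∈ range N, H i v) :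
    AS χ G s = ∑ i ∈ range N, AS χ (H i) s := by
  unfold AS
  rw [sum_comm]
  refine sum_congr rfl fun n hn => ?_
  rw [h _ (div_nonneg (Real.log_natCast_nonneg _) (Real.log_natCast_nonneg _)), sum_mul]

theorem AS_shift {q : ℕ} (hq : 1 < q) (χ : DirichletCharacter ℂ q) (G : ℝ → ℂ) (s : ℂ) :
    (Real.exp (-((s.re - 1 / 2) * Real.log q)) : ℂ) * AS χ G (1 - (starRingEnd ℂ) s) =
      AS χ (fun v => (Real.exp ((s.re - 1 / 2) * Real.log q * (2 * v - 1)) : ℂ) * G v) s := by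
  unfold AS
  rw [mul_sum]
  refine sum_congr rfl fun n hn => ?_
  have hn1 : 1 ≤ n := (mem_Icc.1 hn).1
  have hn0 : (n : ℂ) ≠ 0 := by
    have : n ≠ 0 := by omega
    exact_mod_cast this
  have hnr : (0 : ℝ) < n := by exact_mod_cast hn1
  have hL : Real.log q ≠ 0 := (Real.log_pos (by exact_mod_cast hq)).ne'
  have e1 : (n : ℂ) ^ (-(1 - (starRingEnd ℂ) s)) =
      (Real.exp (2 * (s.re - 1 / 2) * Real.log n) : ℂ) * (n : ℂ) ^ (-s) := by
    have e2 : -(1 - (starRingEnd ℂ) s) = ((2 * (s.re - 1 / 2) : ℝ) : ℂ) + (-s) := by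
      apply Complex.ext
      · simp
        ring
      · simp
    rw [e2, Complex.cpow_add _ _ hn0]
    congr 1
    have e3 : (n : ℂ) = ((n : ℝ) : ℂ) := by push_cast; rfl
    rw [e3, ← Complex.ofReal_cpow (Nat.cast_nonneg n), Real.rpow_def_of_pos hnr, mul_comm]
  have e4 : (s.re - 1 / 2) * Real.log q * (2 * (Real.log n / Real.log q) - 1) =
      2 * (s.re - 1 / 2) * Real.log n + -((s.re - 1 / 2) * Real.log q) := by
    field_simp
    ring
  rw [e1]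
  beta_reduce
  rw [e4, Real.exp_add]
  push_cast
  ring

theorem norm_q {q : ℕ} (hq : 1 < q) (s : ℂ) :
    ‖(q : ℂ) ^ (1 / 2 - s)‖ = Real.exp (-((s.re - 1 / 2) * Real.log q)) := by
  have hq0 : (0 : ℝ) < q := by exact_mod_cast (by omega : 0 < q)
  rw [Complex.norm_natCast_cpow_of_pos (by omega), Real.rpow_def_of_pos hq0]
  congr 1
  simp
  ring

/-! ### weights -/

theorem WG_add {B1 B2 : ℝ} {G1 G2 : ℝ → ℂ} (h1 : WG B1 G1) (h2 : WG B2 G2) :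
    WG (B1 + B2) (fun v => G1 v + G2 v) := by
  have s1 : ContDiff ℝ ∞ (deriv G1) := (contDiff_infty_iff_deriv.1 h1.smooth).2
  have s2 : ContDiff ℝ ∞ (deriv G2) := (contDiff_infty_iff_deriv.1 h2.smooth).2
  have d1 : ∀ v, HasDerivAt G1 (deriv G1 v) v := fun v =>
    ((contDiff_infty_iff_deriv.1 h1.smooth).1 v).hasDerivAt
  have d2 : ∀ v, HasDerivAt G2 (deriv G2 v) v := fun v =>
    ((contDiff_infty_iff_deriv.1 h2.smooth).1 v).hasDerivAt
  have dd1 : ∀ v, HasDerivAt (deriv G1) (deriv (deriv G1) v) v := fun v =>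
    ((contDiff_infty_iff_deriv.1 s1).1 v).hasDerivAt
  have dd2 : ∀ v, HasDerivAt (deriv G2) (deriv (deriv G2) v) v := fun v =>
    ((contDiff_infty_iff_deriv.1 s2).1 v).hasDerivAt
  have e1 : deriv (fun v => G1 v + G2 v) = fun v => deriv G1 v + deriv G2 v :=
    funext fun v => ((d1 v).add (d2 v)).deriv
  have e2 : deriv (fun v => deriv G1 v + deriv G2 v) =
      fun v => deriv (deriv G1) v + deriv (deriv G2) v :=
    funext fun v => ((dd1 v).add (dd2 v)).deriv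
  refine ⟨h1.smooth.add h2.smooth,
    fun v => (norm_add_le _ _).trans (add_le_add (h1.b0 v) (h2.b0 v)), fun v => ?_, fun v => ?_⟩
  · rw [e1]
    exact (norm_add_le _ _).trans (add_le_add (h1.b1 v) (h2.b1 v))
  · rw [e1, e2]
    exact (norm_add_le _ _).trans (add_le_add (h1.b2 v) (h2.b2 v))

theorem deriv_out {P : ℝ → ℂ} {lo hi : ℝ} (hs : ∀ v, v ∉ Set.Icc lo hi → P v = 0) :
    ∀ v, v ∉ Set.Icc lo hi → deriv P v = 0 := by
  intro v hv
  have h1 : P =ᶠ[nhds v] fun _ => 0 := by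
    filter_upwards [isClosed_Icc.isOpen_compl.mem_nhds hv] with w hw
    exact hs w hw
  rw [h1.deriv_eq, deriv_const]

theorem WG_exp {B lo hi X M : ℝ} {P : ℝ → ℂ} (hP : WG B P)
    (hs : ∀ v, v ∉ Set.Icc lo hi → P v = 0)
    (hM : ∀ v, v ∈ Set.Icc lo hi → Real.exp (X * (2 * v - 1)) ≤ M) (hM0 : 0 ≤ M) :
    WG ((1 + 2 * |X|) ^ 2 * M * B)
      (fun v => (Real.exp (X * (2 * v - 1)) : ℂ) * P v) := by
  have hB : 0 ≤ B := (norm_nonneg _).trans (hP.b0 0)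
  have hX : 0 ≤ |X| := abs_nonneg X
  have s1 : ContDiff ℝ ∞ (deriv P) := (contDiff_infty_iff_deriv.1 hP.smooth).2
  have d1 : ∀ v, HasDerivAt P (deriv P v) v := fun v =>
    ((contDiff_infty_iff_deriv.1 hP.smooth).1 v).hasDerivAt
  have dd1 : ∀ v, HasDerivAt (deriv P) (deriv (deriv P) v) v := fun v =>
    ((contDiff_infty_iff_deriv.1 s1).1 v).hasDerivAt
  have dE : ∀ v : ℝ, HasDerivAt (fun v : ℝ => (Real.exp (X * (2 * v - 1)) : ℂ))
      ((Real.exp (X * (2 * v - 1)) * (2 * X) : ℝ) : ℂ) v := by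
    intro v
    have h1 : HasDerivAt (fun v : ℝ => X * (2 * v - 1)) (2 * X) v := by
      have h2 := ((((hasDerivAt_id v).const_mul 2).sub_const 1).const_mul X)
      refine h2.congr_deriv ?_
      ring
    exact (h1.exp).ofReal_comp
  have e1 : deriv (fun v : ℝ => (Real.exp (X * (2 * v - 1)) : ℂ) * P v) = fun v =>
      (Real.exp (X * (2 * v - 1)) : ℂ) * ((2 * X : ℝ) * P v + deriv P v) := by
    funext v
    have h2 : HasDerivAt (fun v : ℝ => (Real.exp (X * (2 * v - 1)) : ℂ) * P v) _ v :=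
      (dE v).mul (d1 v)
    rw [h2.deriv]
    push_cast
    ring
  have e2 : deriv (fun v : ℝ => (Real.exp (X * (2 * v - 1)) : ℂ) *
      ((2 * X : ℝ) * P v + deriv P v)) = fun v =>
      (Real.exp (X * (2 * v - 1)) : ℂ) * ((4 * X ^ 2 : ℝ) * P v + (4 * X : ℝ) * deriv P v +
        deriv (deriv P) v) := by
    funext v
    have h1 : HasDerivAt (fun v => ((2 * X : ℝ) : ℂ) * P v + deriv P v)
        (((2 * X : ℝ) : ℂ) * deriv P v + deriv (deriv P) v) v :=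
      ((d1 v).const_mul _).add (dd1 v)
    have h2 : HasDerivAt (fun v : ℝ => (Real.exp (X * (2 * v - 1)) : ℂ) *
      ((2 * X : ℝ) * P v + deriv P v)) _ v := (dE v).mul h1
    rw [h2.deriv]
    push_cast
    ring
  have hz1 := deriv_out hs
  have hz2 := deriv_out hz1
  have hn : ∀ v : ℝ, ‖(Real.exp (X * (2 * v - 1)) : ℂ)‖ = Real.exp (X * (2 * v - 1)) := by
    intro v
    rw [Complex.norm_real, Real.norm_eq_abs, abs_of_pos (Real.exp_pos _)]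
  have n2 : ‖((2 * X : ℝ) : ℂ)‖ = 2 * |X| := by
    rw [Complex.norm_real, Real.norm_eq_abs, abs_mul, abs_two]
  have n4 : ‖((4 * X : ℝ) : ℂ)‖ = 4 * |X| := by
    rw [Complex.norm_real, Real.norm_eq_abs, abs_mul]
    norm_num
  have n4' : ‖((4 * X ^ 2 : ℝ) : ℂ)‖ = 4 * |X| ^ 2 := by
    rw [Complex.norm_real, Real.norm_eq_abs, abs_mul, abs_pow]
    norm_num
  have hB0 : 0 ≤ (1 + 2 * |X|) ^ 2 * M * B := by positivity
  have key : ∀ v (z : ℂ), z = 0 ∨ (v ∈ Set.Icc lo hi ∧ ‖z‖ ≤ (1 + 2 * |X|) ^ 2 * B) →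
      ‖(Real.exp (X * (2 * v - 1)) : ℂ) * z‖ ≤ (1 + 2 * |X|) ^ 2 * M * B := by
    rintro v z (rfl | ⟨hv, hz⟩)
    · rw [mul_zero, norm_zero]
      exact hB0
    · rw [norm_mul, hn]
      calc _ ≤ M * ((1 + 2 * |X|) ^ 2 * B) := mul_le_mul (hM v hv) hz (norm_nonneg _) hM0
        _ = _ := by ring
  refine ⟨?_, fun v => ?_, fun v => ?_, fun v => ?_⟩
  · refine ContDiff.mul ?_ hP.smooth
    refine Complex.ofRealCLM.contDiff.comp ?_
    exact Real.contDiff_exp.comp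
      (contDiff_const.mul ((contDiff_const.mul contDiff_id).sub contDiff_const))
  · refine key v _ ?_
    by_cases hv : v ∈ Set.Icc lo hi
    · refine Or.inr ⟨hv, (hP.b0 v).trans ?_⟩
      nlinarith [mul_nonneg hX hB, mul_nonneg (mul_nonneg hX hX) hB]
    · exact Or.inl (hs v hv)
  · rw [e1]
    refine key v _ ?_
    by_cases hv : v ∈ Set.Icc lo hi
    · refine Or.inr ⟨hv, (norm_add_le _ _).trans ?_⟩
      rw [norm_mul, n2]
      have a1 := mul_le_mul_of_nonneg_left (hP.b0 v) (by positivity : 0 ≤ 2 * |X|)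
      have a2 := hP.b1 v
      nlinarith [mul_nonneg hX hB, mul_nonneg (mul_nonneg hX hX) hB]
    · refine Or.inl ?_
      rw [hs v hv, hz1 v hv, mul_zero, add_zero]
  · rw [e1, e2]
    refine key v _ ?_
    by_cases hv : v ∈ Set.Icc lo hi
    · refine Or.inr ⟨hv, (norm_add_le _ _).trans ((add_le_add_left (norm_add_le _ _) _).trans ?_)⟩
      rw [norm_mul, norm_mul, n4, n4']
      have a1 := mul_le_mul_of_nonneg_left (hP.b0 v) (by positivity : 0 ≤ 4 * |X| ^ 2)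
      have a2 := mul_le_mul_of_nonneg_left (hP.b1 v) (by positivity : 0 ≤ 4 * |X|)
      have a3 := hP.b2 v
      nlinarith [mul_nonneg hX hB, mul_nonneg (mul_nonneg hX hX) hB]
    · refine Or.inl ?_
      rw [hs v hv, hz1 v hv, hz2 v hv, mul_zero, mul_zero, add_zero, add_zero]

/-! ### the mollifier -/

theorem mw_le {q : ℕ} (hq : 1 < q) {κ : ℝ} (hκ : 0 < κ) {l : ℕ} (hl : 1 ≤ l)
    (hl' : (l : ℝ) ≤ (q : ℝ) ^ κ) : |mw q κ l| ≤ 1 := by
  have hL : 0 < Real.log q := Real.log_pos (by exact_mod_cast hq)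
  have hq0 : (0 : ℝ) < q := by exact_mod_cast (by omega : 0 < q)
  have hl0 : (0 : ℝ) < l := by exact_mod_cast hl
  have h1 : Real.log l ≤ κ * Real.log q := by
    rw [← Real.log_rpow hq0]
    exact Real.log_le_log hl0 hl'
  have h2 : 0 ≤ Real.log l := Real.log_natCast_nonneg l
  have h3 : 0 < κ * Real.log q := mul_pos hκ hL
  have h4 : Real.log l / (κ * Real.log q) ≤ 1 := (div_le_one h3).2 h1
  have h5 : 0 ≤ Real.log l / (κ * Real.log q) := div_nonneg h2 h3.le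
  rw [mw, if_pos hl', abs_mul]
  have h6 : |((ArithmeticFunction.moebius l : ℤ) : ℝ)| ≤ 1 := by
    exact_mod_cast ArithmeticFunction.abs_moebius_le_one
  have h7 : |1 - Real.log l / (κ * Real.log q)| ≤ 1 := by
    rw [abs_le]
    constructor <;> linarith
  exact mul_le_one₀ h6 (abs_nonneg _) h7

theorem MS_le {q : ℕ} (hq : 1 < q) (χ : DirichletCharacter ℂ q) {κ : ℝ} (hκ : 0 < κ) {s : ℂ}
    (hs : 0 ≤ s.re) : ‖MS χ κ s‖ ≤ (q : ℝ) ^ κ := by
  unfold MS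
  refine (norm_sum_le _ _).trans ?_
  have h1 : ∀ l ∈ Icc 1 ⌊(q : ℝ) ^ κ⌋₊,
      ‖(mw q κ l : ℂ) * (χ (l : ZMod q) * (l : ℂ) ^ (-s))‖ ≤ 1 := by
    intro l hl
    rw [mem_Icc] at hl
    have hl' : (l : ℝ) ≤ (q : ℝ) ^ κ := (Nat.le_floor_iff (by positivity)).1 hl.2
    rw [norm_mul, norm_mul]
    have a1 : ‖(mw q κ l : ℂ)‖ ≤ 1 := by
      rw [Complex.norm_real, Real.norm_eq_abs]
      exact mw_le hq hκ hl.1 hl'
    have a2 : ‖χ (l : ZMod q)‖ ≤ 1 := χ.norm_le_one _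
    have a3 : ‖(l : ℂ) ^ (-s)‖ ≤ 1 := by
      rw [Complex.norm_natCast_cpow_of_pos (by omega), Complex.neg_re]
      exact Real.rpow_le_one_of_one_le_of_nonpos (by exact_mod_cast hl.1) (by linarith)
    exact mul_le_one₀ a1 (by positivity) (mul_le_one₀ a2 (norm_nonneg _) a3)
  refine (sum_le_sum h1).trans ?_
  rw [sum_const, Nat.card_Icc, nsmul_eq_mul, mul_one, Nat.add_sub_cancel]
  exact Nat.floor_le (by positivity)

theorem MP_le {q : ℕ} (hq : 1 < q) (χ : DirichletCharacter ℂ q) {κ : ℝ} (hκ : 0 < κ) {s : ℂ}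
    (hs : 0 ≤ s.re) : ‖MP χ κ s‖ ≤ 3 * (q : ℝ) ^ κ := by
  have hq1 : (1 : ℝ) ≤ q := by exact_mod_cast hq.le
  unfold MP
  have h1 := MS_le hq χ hκ hs
  have h2 := MS_le hq χ (half_pos hκ) hs
  have h3 : (q : ℝ) ^ (κ / 2) ≤ (q : ℝ) ^ κ :=
    Real.rpow_le_rpow_of_exponent_le hq1 (by linarith)
  have h4 : ‖2 * MS χ κ s‖ = 2 * ‖MS χ κ s‖ := by
    rw [norm_mul]
    norm_num
  calc _ ≤ ‖2 * MS χ κ s‖ + ‖MS χ (κ / 2) s‖ := norm_sub_le _ _
    _ ≤ 3 * (q : ℝ) ^ κ := by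
      rw [h4]
      linarith

/-! ### exponentials -/

theorem ex1 {X Λ κ β : ℝ} (hX : -Λ ≤ X) (hβ : κ / 2 ≤ β) (hκ : 0 ≤ κ) (hΛ : 0 ≤ Λ) :
    Real.exp (-β * X) ≤ Real.exp (β * Λ) * Real.exp (-(κ / 2) * X) := by
  rw [← Real.exp_add]
  apply Real.exp_le_exp.2
  nlinarith [mul_nonneg (sub_nonneg.2 hβ) (by linarith : 0 ≤ X + Λ), mul_nonneg hκ hΛ]

theorem ex2 {X L κ η : ℝ} (hX : X ≤ L / 4) (hL : 0 ≤ L) (hκ : 0 ≤ κ) (hη : κ ≤ η) :
    Real.exp (-η * L) ≤ Real.exp (-(κ / 2) * X) := by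
  apply Real.exp_le_exp.2
  nlinarith [mul_nonneg hκ hL, mul_nonneg (sub_nonneg.2 hη) hL,
    mul_nonneg hκ (by linarith : 0 ≤ L / 4 - X)]

/-- the exponents of the pieces of the dual sum -/
theorem ex3 {X L Λ κ η a : ℝ} (hΛ : 0 ≤ Λ) (hX : -Λ ≤ X) (hXL : X ≤ L / 4) (hL : 0 ≤ L)
    (hκ : 0 < κ) (hκ1 : κ ≤ 1 / 100) (hη : 20 * κ ≤ η) (ha : -(κ / 4) ≤ a) (ha' : a ≤ 1 / 2 + κ) :
    Real.exp (X * (4 * a + 2 * κ - 2)) * (Real.exp (-(2 * X * max a 0)) + Real.exp (-η * L)) ≤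
      2 * Real.exp (4 * Λ) * Real.exp (-κ * X) := by
  have hm0 : 0 ≤ max a 0 := le_max_right _ _
  have h1 : X * (4 * a + 2 * κ - 2) + -(2 * X * max a 0) ≤ 4 * Λ + -κ * X := by
    obtain ⟨β, hβ⟩ : ∃ β, β = 2 + 2 * max a 0 - 4 * a - 3 * κ := ⟨_, rfl⟩
    have hβ0 : 0 ≤ β ∧ β ≤ 4 := by
      rcases le_total 0 a with h | h
      · rw [max_eq_left h] at hβ
        constructor <;> linarith
      · rw [max_eq_right h] at hβ
        constructor <;> linarith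
    have h2 : X * (4 * a + 2 * κ - 2) + -(2 * X * max a 0) - (4 * Λ + -κ * X) =
        -(β * (X + Λ)) - (4 - β) * Λ := by
      rw [hβ]
      ring
    have h3 := mul_nonneg hβ0.1 (by linarith : 0 ≤ X + Λ)
    have h4 := mul_nonneg (sub_nonneg.2 hβ0.2) hΛ
    linarith
  have h2 : X * (4 * a + 2 * κ - 2) + -η * L ≤ 4 * Λ + -κ * X := by
    obtain ⟨γ, hγ⟩ : ∃ γ, γ = 4 * a + 3 * κ - 2 := ⟨_, rfl⟩
    have h3 : X * (4 * a + 2 * κ - 2) + -η * L - (4 * Λ + -κ * X) = X * γ - η * L - 4 * Λ := by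
      rw [hγ]
      ring
    have hγ1 : γ ≤ 7 * κ := by linarith
    have hγ2 : -4 ≤ γ := by linarith
    have h4 := mul_nonneg (sub_nonneg.2 hη) hL
    rcases le_total 0 X with h5 | h5
    · have h6 := mul_nonneg (sub_nonneg.2 hγ1) h5
      have h7 := mul_nonneg hκ.le (by linarith : 0 ≤ L / 4 - X)
      have h8 := mul_nonneg hκ.le hL
      nlinarith
    · have h6 := mul_nonneg (by linarith : 0 ≤ γ + 4) (by linarith : 0 ≤ -X)
      have h8 := mul_nonneg hκ.le hL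
      nlinarith
  rw [mul_add, ← Real.exp_add, ← Real.exp_add]
  have h3 := Real.exp_le_exp.2 h1
  have h4 := Real.exp_le_exp.2 h2
  rw [Real.exp_add (4 * Λ)] at h3 h4
  linarith

/-- the polynomial factor -/
theorem ex4 {X Λ κ : ℝ} (hΛ : 0 ≤ Λ) (hX : -Λ ≤ X) (hκ : 0 < κ) :
    (1 + 2 * |X|) ^ 4 * Real.exp (-κ * X) ≤
      24 * (4 / κ) ^ 4 * Real.exp (κ / 4 + κ * Λ) * Real.exp (-(κ / 2) * X) := by
  have h0 : 0 ≤ |X| := abs_nonneg X
  have h1 : |X| ≤ X + 2 * Λ := by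
    rcases le_total 0 X with h | h
    · rw [abs_of_nonneg h]
      linarith
    · rw [abs_of_nonpos h]
      linarith
  have h2 := Real.pow_div_factorial_le_exp (κ / 4 * (1 + 2 * |X|)) (by positivity) 4
  have h3 : (Nat.factorial 4 : ℝ) = 24 := by norm_num [Nat.factorial]
  rw [h3, div_le_iff₀ (by norm_num), mul_pow] at h2
  have h4 : (1 + 2 * |X|) ^ 4 ≤ 24 * (4 / κ) ^ 4 * Real.exp (κ / 4 * (1 + 2 * |X|)) := by
    have h5 : (4 / κ) ^ 4 * (κ / 4) ^ 4 = 1 := by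
      rw [← mul_pow]
      have : 4 / κ * (κ / 4) = 1 := by field_simp
      rw [this, one_pow]
    have h6 := mul_le_mul_of_nonneg_left h2 (by positivity : 0 ≤ (4 / κ) ^ 4)
    calc (1 + 2 * |X|) ^ 4 = ((4 / κ) ^ 4 * (κ / 4) ^ 4) * (1 + 2 * |X|) ^ 4 := by
          rw [h5, one_mul]
      _ = (4 / κ) ^ 4 * ((κ / 4) ^ 4 * (1 + 2 * |X|) ^ 4) := by ring
      _ ≤ _ := h6
      _ = _ := by ring
  have h7 : Real.exp (κ / 4 * (1 + 2 * |X|)) * Real.exp (-κ * X) ≤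
      Real.exp (κ / 4 + κ * Λ) * Real.exp (-(κ / 2) * X) := by
    rw [← Real.exp_add, ← Real.exp_add]
    apply Real.exp_le_exp.2
    nlinarith [mul_le_mul_of_nonneg_left h1 hκ.le]
  calc _ ≤ 24 * (4 / κ) ^ 4 * Real.exp (κ / 4 * (1 + 2 * |X|)) * Real.exp (-κ * X) :=
        mul_le_mul_of_nonneg_right h4 (Real.exp_pos _).le
    _ = 24 * (4 / κ) ^ 4 * (Real.exp (κ / 4 * (1 + 2 * |X|)) * Real.exp (-κ * X)) := by ring
    _ ≤ 24 * (4 / κ) ^ 4 * (Real.exp (κ / 4 + κ * Λ) * Real.exp (-(κ / 2) * X)) :=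
        mul_le_mul_of_nonneg_left h7 (by positivity)
    _ = _ := by ring

/-- the logarithms -/
theorem ex5 {L : ℝ} (hL : 0 ≤ L) :
    Real.exp (-(1 / 5) * L) * (1 + L) ^ 4 ≤ 240000 * Real.exp (1 / 10) * Real.exp (-(1 / 10) * L) := by
  have h2 := Real.pow_div_factorial_le_exp (1 / 10 * (1 + L)) (by positivity) 4
  have h3 : (Nat.factorial 4 : ℝ) = 24 := by norm_num [Nat.factorial]
  rw [h3, div_le_iff₀ (by norm_num), mul_pow] at h2
  have h4 : (1 + L) ^ 4 ≤ 240000 * Real.exp (1 / 10 * (1 + L)) := by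
    norm_num at h2 ⊢
    linarith
  calc _ ≤ Real.exp (-(1 / 5) * L) * (240000 * Real.exp (1 / 10 * (1 + L))) :=
        mul_le_mul_of_nonneg_left h4 (Real.exp_pos _).le
    _ = 240000 * (Real.exp (-(1 / 5) * L) * Real.exp (1 / 10 * (1 + L))) := by ring
    _ = 240000 * (Real.exp (1 / 10) * Real.exp (-(1 / 10) * L)) := by
        rw [← Real.exp_add, ← Real.exp_add]
        congr 2
        ring
    _ = _ := by ring

/-! ### the pieces -/

/-- the pieces -/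
noncomputable def pc (κ : ℝ) (G : ℝ → ℂ) (i : ℕ) (v : ℝ) : ℂ := G v * om ((4 / κ) * v - i)

/-- their number -/
noncomputable def nn (κ : ℝ) : ℕ := ⌊2 / κ⌋₊ + 6

/-- the constant -/
noncomputable def KK (κ D : ℝ) : ℝ := 1 + 2 * (4 / κ) * D + (4 / κ) ^ 2 * D

theorem pc_WG {κ D B : ℝ} (hκ : 0 < κ) (hD : 0 < D) (d1 : ∀ x, ‖deriv om x‖ ≤ D)
    (d2 : ∀ x, ‖deriv (deriv om) x‖ ≤ D) {G : ℝ → ℂ} (hG : WG B G) (i : ℕ) :
    WG (B * KK κ D) (pc κ G i) := by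
  obtain ⟨w1, w2, w3, w4⟩ := piece hG.smooth hG.b0 hG.b1 hG.b2 hD d1 d2
    (by positivity : 0 < 4 / κ) (i : ℝ)
  exact ⟨w1, w2, w3, w4⟩

theorem pc_supp {κ : ℝ} (hκ : 0 < κ) (G : ℝ → ℂ) (i : ℕ) (v : ℝ)
    (hv : v ∉ Set.Icc (((i : ℝ) - 1) * κ / 4) (((i : ℝ) - 1) * κ / 4 + κ / 2)) :
    pc κ G i v = 0 := by
  unfold pc
  rw [om_zero, mul_zero]
  intro hv'
  apply hv
  rw [Set.mem_Icc] at hv' ⊢
  obtain ⟨h1, h2⟩ := hv'
  have e3 : 4 / κ * v * κ = 4 * v := by field_simp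
  have e4 := mul_le_mul_of_nonneg_right (by linarith : ((i : ℝ) - 1) ≤ 4 / κ * v) hκ.le
  have e5 := mul_le_mul_of_nonneg_right (by linarith : 4 / κ * v ≤ (i : ℝ) + 1) hκ.le
  rw [e3] at e4 e5
  constructor <;> linarith

theorem pc_sum {κ : ℝ} (hκ : 0 < κ) (G : ℝ → ℂ) (hG : ∀ v, 1 / 2 + κ ≤ v → G v = 0) (v : ℝ)
    (hv : 0 ≤ v) : G v = ∑ i ∈ range (nn κ), pc κ G i v := by
  by_cases hv' : 1 / 2 + κ ≤ v
  · have : G v = 0 := hG v hv'
    simp only [pc, this, zero_mul, sum_const_zero]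
  · rw [not_le] at hv'
    simp only [pc]
    rw [← mul_sum, om_sum, mul_one]
    · positivity
    · have h1 : 4 / κ * v ≤ 4 / κ * (1 / 2 + κ) :=
        mul_le_mul_of_nonneg_left hv'.le (by positivity)
      have h2 : 4 / κ * (1 / 2 + κ) = 2 / κ + 4 := by
        field_simp
        ring
      rw [h2] at h1
      have h3 : 2 / κ < (⌊2 / κ⌋₊ : ℝ) + 1 := Nat.lt_floor_add_one _
      unfold nn
      push_cast
      linarith

theorem pc_a {κ : ℝ} (hκ : 0 < κ) {i : ℕ} (hi : i ∈ range (nn κ)) :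
    ((i : ℝ) - 1) * κ / 4 ≤ 1 / 2 + κ := by
  rw [mem_range] at hi
  have h1 : (i : ℝ) + 1 ≤ (nn κ : ℝ) := by exact_mod_cast hi
  have h2 : (⌊2 / κ⌋₊ : ℝ) ≤ 2 / κ := Nat.floor_le (by positivity)
  have h3 : (nn κ : ℝ) = (⌊2 / κ⌋₊ : ℝ) + 6 := by
    unfold nn
    push_cast
    ring
  have h4 : (i : ℝ) - 1 ≤ 2 / κ + 4 := by linarith
  have h5 := mul_le_mul_of_nonneg_right h4 hκ.le
  have h6 : (2 / κ + 4) * κ = 2 + 4 * κ := by field_simp
  rw [h6] at h5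
  linarith

/-- splitting -/
theorem split {q : ℕ} {Θ : Type*} [Fintype Θ] (ψ : Θ → DirichletCharacter ℂ q) (M : Θ → ℂ) (s : ℂ)
    (G : ℝ → ℂ) (N : ℕ) (H : ℕ → ℝ → ℂ) (h : ∀ v : ℝ, 0 ≤ v → G v = ∑ i ∈ range N, H i v)
    (b : ℝ) (hb : ∀ i ∈ range N, ∑ θ, ‖AS (ψ θ) (H i) s * M θ‖ ^ 2 ≤ b) :
    ∑ θ, ‖AS (ψ θ) G s * M θ‖ ^ 2 ≤ (N : ℝ) ^ 2 * b := by
  calc ∑ θ, ‖AS (ψ θ) G s * M θ‖ ^ 2
      ≤ ∑ θ, N * ∑ i ∈ range N, ‖AS (ψ θ) (H i) s * M θ‖ ^ 2 := by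
        refine sum_le_sum fun θ _ => ?_
        rw [AS_sum _ s G N H h, sum_mul]
        have h1 := norm_sum_le (range N) fun i => AS (ψ θ) (H i) s * M θ
        have h2 := sq_sum_le_card_mul_sum_sq (s := range N)
          (f := fun i => ‖AS (ψ θ) (H i) s * M θ‖)
        rw [card_range] at h2
        exact (pow_le_pow_left₀ (norm_nonneg _) h1 2).trans h2
    _ = N * ∑ i ∈ range N, ∑ θ, ‖AS (ψ θ) (H i) s * M θ‖ ^ 2 := by
        rw [← mul_sum, sum_comm]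
    _ ≤ N * ∑ i ∈ range N, b :=
        mul_le_mul_of_nonneg_left (sum_le_sum hb) (Nat.cast_nonneg _)
    _ = (N : ℝ) ^ 2 * b := by
        rw [sum_const, card_range, nsmul_eq_mul]
        ring

end Pool.Agent.Y474.R11
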